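import Pool.Agent.H486.LW.Final

/-!
# The log-free density theorem with the exponent of Sarnak's density hypothesis

Let `Γ ≤ SL(2, ℤ)` be any congruence subgroup, of index `n ≥ 2`, let `τ ≥ 1 / log n`, and let
`f_1, ..., f_k` be linearly independent Maass cusp forms for `Γ` with Laplace eigenvalues
`μ_i ≤ 1/4 + τ²`. Write `μ_i = 1/4 - ν_i²` with `0 ≤ ν_i ≤ 1/2` if `μ_i ≤ 1/4`, and `ν_i = 0` if
`μ_i ≥ 1/4`. Then for every `c < 2`

`∑_i n ^ (c ν_i) ≤ C n τ² min(1, τ)`

with a constant `C` which depends only on `c`. In particular (`τ = 1 / log n`)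

* there are at most `C n ^ (1 - c α) / (log n)³` forms with `ν_i ≥ α`, uniformly in `α ∈ [0, 1/2]` and
  in all congruence subgroups: this is the density hypothesis of Sarnak and Xue (its exponent is
  `1 - 2 α`), without the loss of `n ^ ε` for small `α`;
* the space of the cusp forms with eigenvalue `≤ 1/4` (eigenvalue `1/4` included) has dimension at
  most `C n / (log n)³`;
* for every `τ ≥ 1 / log n` the number of the cusp forms with eigenvalue `≤ 1/4 + τ²` is at most
  `C n τ² min(1, τ)`, the order of magnitude given by Weyl's law and the Plancherel measure, so there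
  is no accumulation of eigenvalues near `1/4` at any scale which is accessible.

The known density theorems (Sarnak-Xue, Huxley, Iwaniec, Humphries, and the one of the library for all
congruence subgroups) lose a factor `n ^ ε`, so they say nothing about the forms with
`ν_i = O(1 / log n)` and nothing about the eigenvalue `1/4`. The number `(log n)⁻³` is the Plancherel
measure of a ball of radius `1 / log n` about the eigenvalue `1/4`.

Proof. (1) Pretrace inequality with the square of the kernel `∑_{j < J} R_j e^(R_j/2) 1_{R_j} / vol`,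
`R_j = j + 3`, `J` as large as `(1 - κ) log n` (as `1 / (2 τ)` for the forms with
`1/4 < μ ≤ 1/4 + τ²`, on which the kernel is still positive); its eigenvalue is
`≫ J³ e^((1 - ε) ν J)`.
(2) All the mass of a cusp form with eigenvalue `≤ 5/4`, except at most `5 / (16 π²)`, is below the
height `h` in each cusp of width `h`.
(3) New arithmetic input: for `X ≤ n ^ (1 - κ)` the numbers of fixed points of the `δ ∈ SL(2, ℤ)`,
`δ ≠ ±1`, `‖δ‖ ≤ X`, on the cosets of `Γ` have a sum `≤ C X n ^ (1 - η)`, with a saving of a power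
and not a loss of `n ^ ε`. When `n` is close to the level `N` this rests on the equidistribution in
short intervals of the traces of the elements of the image `S` of `Γ` in `SL(2, ℤ/N)`:
`|∑_{h ∈ S} e(a tr h / N)| ≤ C N ^ (15/8 + ε) a ^ (5/8)` for every congruence subgroup of level `N`,
proved by duality, the evaluation of the complete sums over `SL(2, ℤ/N)` by Kloosterman sums, and
Kloosterman's bound.
-/

set_option autoImplicit false

open CongruenceSubgroup
open scoped MatrixGroups

namespace Pool.Agent.Results.MP_a812b2_nt.LogFreeDensityHypothesis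

/-- `f` is a Maass cusp form for `Γ` with eigenvalue `μ` (as a function on the upper half plane). -/
structure IsMaassCuspForm (Γ : Subgroup SL(2, ℤ)) (μ : ℝ) (f : ℂ → ℂ) : Prop where
  /-- smoothness -/
  smooth : ContDiffOn ℝ (⊤ : ℕ∞) f {w : ℂ | 0 < w.im}
  /-- invariance -/
  inv : ∀ γ ∈ Γ, ∀ z : UpperHalfPlane, f ((γ • z : UpperHalfPlane) : ℂ) = f (z : ℂ)
  /-- `-y² (f_xx + f_yy) = μ f` -/
  eq : ∀ z : UpperHalfPlane, -((z.im : ℂ) ^ 2) *
      (deriv (fun s : ℝ => deriv (fun t : ℝ => f ((t : ℂ) + (z.im : ℂ) * Complex.I)) s) z.re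
        + deriv (fun s : ℝ => deriv (fun t : ℝ => f ((z.re : ℂ) + (t : ℂ) * Complex.I)) s) z.im)
      = (μ : ℂ) * f (z : ℂ)
  /-- square integrability on `Γ \ ℍ` -/
  sqint : ∀ γ : SL(2, ℤ), MeasureTheory.IntegrableOn (fun w : ℂ => ‖f w‖ ^ 2 / w.im ^ 2)
    ((fun z : UpperHalfPlane => ((γ • z : UpperHalfPlane) : ℂ)) '' ModularGroup.fd)
  /-- vanishing at the cusps: if `γ T ^ h γ⁻¹ ∈ Γ`, so that `x ↦ f(γ (x + iy))` has period `h`, then
  its integral over a period is zero -/
  cusp : ∀ (γ : SL(2, ℤ)) (h : ℕ), 0 < h → γ * ModularGroup.T ^ h * γ⁻¹ ∈ Γ → ∀ y : ℝ, 0 < y →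
    ∫ x in (0 : ℝ)..h, f (((γ 0 0 : ℂ) * (x + y * Complex.I) + (γ 0 1 : ℂ)) /
      ((γ 1 0 : ℂ) * (x + y * Complex.I) + (γ 1 1 : ℂ))) = 0

/-- **The log-free density theorem with the exponent of the density hypothesis.** For each `c < 2`
there is a constant `C` such that for all congruence subgroups `Γ` of `SL(2, ℤ)`, of index `n ≥ 2`,
all `τ ≥ 1 / log n` and all linearly independent Maass cusp forms for `Γ` with Laplace eigenvalues
`μ_i ∈ [0, 1/4 + τ²]` one has `∑_i n ^ (c ν_i) ≤ C n τ² min(1, τ)`, where `ν_i = √(1/4 - μ_i)` if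
`μ_i ≤ 1/4` and `ν_i = 0` otherwise (in Lean the square root of a negative number is zero). -/
theorem result : ∀ c : ℝ, 0 < c → c < 2 → ∃ C : ℝ, 0 < C ∧ ∀ Γ : Subgroup SL(2, ℤ),
    (∃ N : ℕ, 0 < N ∧ Gamma N ≤ Γ) → 2 ≤ Γ.index →
      ∀ τ : ℝ, 1 / Real.log (Γ.index : ℝ) ≤ τ →
        ∀ (k : ℕ) (μ : Fin k → ℝ) (f : Fin k → ℂ → ℂ),
          (∀ i, 0 ≤ μ i ∧ μ i ≤ 1 / 4 + τ ^ 2) → (∀ i, IsMaassCuspForm Γ (μ i) (f i)) →
          LinearIndependent ℂ (fun i => fun z : UpperHalfPlane => f i z) →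
            ∑ i, (Γ.index : ℝ) ^ (c * √(1 / 4 - μ i)) ≤
              C * (Γ.index : ℝ) * (τ ^ 2 * min 1 τ) := by
  intro c hc0 hc2
  obtain ⟨C, hC, h⟩ := Pool.Agent.H486.LW.logfreeW c hc0 hc2
  refine ⟨C, hC, fun Γ hΓ hidx τ hτ k μ f hμ hf hli => ?_⟩
  obtain ⟨N, hN, hΓN⟩ := hΓ
  have hn : (1 : ℝ) < Γ.index := by
    have : 1 < Γ.index := by omega
    exact_mod_cast this
  have hl : 0 < Real.log (Γ.index : ℝ) := Real.log_pos hn
  have hτ0 : 0 < τ := lt_of_lt_of_le (by positivity) hτ
  have hτ1 : 1 ≤ τ * Real.log (Γ.index : ℝ) := by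
    rwa [div_le_iff₀ hl] at hτ
  exact h Γ N hN hΓN hidx τ hτ0 hτ1 k μ f hμ (fun i => ⟨(hf i).smooth, (hf i).eq⟩)
    (fun i => (hf i).inv) (fun i => (hf i).sqint) (fun i => (hf i).cusp) hli

end Pool.Agent.Results.MP_a812b2_nt.LogFreeDensityHypothesis
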