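import Pool.Agent.H329.Sel.Dich

/-!
# The multiplicities of the eigenvalues of `Γ(N)` and divisibility; Selberg's conjecture

For a positive integer `N` and a real number `μ` let `mult N μ` be the dimension of the space of
smooth `Γ(N)`-invariant functions `f` on the upper half plane which are square-integrable on
`Γ(N) \ ℍ` and satisfy `-y² (f_xx + f_yy) = μ f`. Let `ψ(N) = N ∏_{p | N} (1 + 1 / p)` be the
number of points of the projective line over `ℤ / N`. All `μ ≠ 0` are admitted.

* **Monotonicity.** If `N` divides `M`, then `mult N μ / ψ(N) ≤ mult M μ / ψ(M)`. In other words the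
  multiplicity grows at least by the factor `q` from `Γ(N)` to `Γ(N q)` if the prime number `q`
  divides `N`, and by the factor `q + 1` if it does not; no larger factors are possible in general
  (principal series).
* **Dichotomy.** For every `N` either `mult N μ = 0`, or `mult N μ` is at least the number of
  squares of invertible residue classes modulo `N` (which is `φ(N) / 2 ^ ω(N)` for odd `N`).
* **Selberg's conjecture** is equivalent to each of the following statements.
  - For all `0 < μ < 1/4` and all `N` the multiplicity `mult N μ` is smaller than the number of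
    squares of invertible residue classes modulo `N`.
  - (for one prime number `p`, or for all) For all `0 < μ < 1/4` and all `N` there is some `k` with
    `mult (N p ^ k) μ < p ^ k`.
  - (for one set `S` of positive integers which contains a multiple of every positive integer, or
    for all) For each `0 < μ < 1/4` the numbers `mult M μ / M`, `M ∈ S`, are bounded.
  - (for one sequence `M_1 | M_2 | …` such that every positive integer divides some `M_n`, for
    example `M_n = n!`) For each `0 < μ < 1/4` the lower limit of `mult (M_n) μ / ψ(M_n)` is zero.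

The proof of the monotonicity for `q | N`. The commutative group `Γ(N) / Γ(N q) = sl₂(F_q)` acts on
the space `V(N q)` of eigenfunctions for `Γ(N q)`. For a line `L` of `F_q²` let `b_L` and `n_L` be
the matrices which preserve `L`, and those which moreover kill `L` and the quotient. A character of
`sl₂(F_q)` which is trivial on `n_L` for three lines `L` is trivial; so with
`f = dim V(N q)^{n_L}`, `e = dim V(N q)^{b_L}` one has
`(q + 1) (f + e) + 2 dim V(N) ≤ 2 dim V(N q) + 2 (q + 1) dim V(N)`. The functions `F(z)` and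
`F(z / q)` give a lower bound for `e`, in terms of `dim V(N)` and of the number `f` of the level
below; and `(q + 1) f ≤ 2 dim V(N q)` by induction (`Pool.Agent.H329.Sel.unip_rank`; for `N = 1`
this says `(q + 1) mult Γ₁(q) ≤ 2 mult Γ(q)`). The induction starts with a similar inequality
for the representations of `SL₂(F_q) = Γ(N) / Γ(N q)`, `q ∤ N`, and with the fact that a function
for `Γ(N)` with the period `N / q`, `q ∤ N`, is constant.
The dichotomy: if `V(N) ≠ 0`, then there is an `n` prime to `N` and some `F ≠ 0` in `V(N)` with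
`F(z + 1) = e(n / N) F(z)`; the matrices in `Γ₀(N)` send it to functions with `n a²` instead
of `n`, `a` prime to `N`.
-/

set_option autoImplicit false

open Pool.Agent.TH652.Sel Pool.Agent.H329.Sel

namespace Pool.Agent.Results.MP_a812b2_nt.MultiplicityDivisibility

/-- Selberg's eigenvalue conjecture. -/
def Selberg : Prop :=
  ∀ Γ : Subgroup (Matrix.SpecialLinearGroup (Fin 2) ℤ),
    (∃ N : ℕ, 0 < N ∧ CongruenceSubgroup.Gamma N ≤ Γ) →
    ∀ (f : ℂ → ℂ) (μ : ℝ), 0 < μ → μ < 1 / 4 →
      ContDiffOn ℝ (⊤ : ℕ∞) f {w : ℂ | 0 < w.im} →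
      (∀ γ ∈ Γ, ∀ z : UpperHalfPlane,
        f ((γ • z : UpperHalfPlane) : ℂ) = f (z : ℂ)) →
      (∀ z : UpperHalfPlane,
        -((z.im : ℂ) ^ 2) *
          (deriv (fun s : ℝ => deriv (fun t : ℝ =>
              f ((t : ℂ) + (z.im : ℂ) * Complex.I)) s) z.re
           + deriv (fun s : ℝ => deriv (fun t : ℝ =>
              f ((z.re : ℂ) + (t : ℂ) * Complex.I)) s) z.im)
          = (μ : ℂ) * f (z : ℂ)) →
      (∀ γ : Matrix.SpecialLinearGroup (Fin 2) ℤ,
        MeasureTheory.IntegrableOn (fun w : ℂ => ‖f w‖ ^ 2 / w.im ^ 2)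
          ((fun z : UpperHalfPlane => ((γ • z : UpperHalfPlane) : ℂ)) '' ModularGroup.fd)) →
      ∀ z : UpperHalfPlane, f (z : ℂ) = 0

theorem selberg_iff : Selberg ↔ SelbergConjecture := by
  constructor
  · intro h Γ hΓ f μ h1 h2 ⟨h3, h4, h5, h6⟩
    exact h Γ hΓ f μ h1 h2 h3 h4 h5 h6
  · intro h Γ hΓ f μ h1 h2 h3 h4 h5 h6
    exact h Γ hΓ f μ h1 h2 ⟨h3, h4, h5, h6⟩

/-- **Lower bounds for the multiplicities of the eigenvalues of `Γ(N)`, and the equivalence of
Selberg's conjecture with upper bounds for the multiplicities of exceptional eigenvalues.** -/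
theorem result :
    -- monotonicity
    (∀ μ : ℝ, μ ≠ 0 → ∀ N M : ℕ, 0 < M → N ∣ M →
      (psi M : Cardinal) * mult N μ ≤ (psi N : Cardinal) * mult M μ) ∧
    -- dichotomy
    (∀ μ : ℝ, μ ≠ 0 → ∀ N : ℕ, 0 < N → mult N μ = 0 ∨ (numSq N : Cardinal) ≤ mult N μ) ∧
    -- four criteria for Selberg's conjecture
    (Selberg ↔ ∀ μ : ℝ, 0 < μ → μ < 1 / 4 → ∀ N : ℕ, 0 < N →
      mult N μ < (numSq N : Cardinal)) ∧
    (∀ p : ℕ, p.Prime → (Selberg ↔ ∀ μ : ℝ, 0 < μ → μ < 1 / 4 → ∀ N : ℕ, 0 < N →
      ∃ k : ℕ, mult (N * p ^ k) μ < ((p ^ k : ℕ) : Cardinal))) ∧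
    (∀ S : Set ℕ, (∀ N, 0 < N → ∃ M ∈ S, 0 < M ∧ N ∣ M) →
      (Selberg ↔ ∀ μ : ℝ, 0 < μ → μ < 1 / 4 → ∃ C : ℕ, ∀ M ∈ S, 0 < M →
        mult M μ ≤ ((C * M : ℕ) : Cardinal))) ∧
    (∀ M : ℕ → ℕ, (∀ n, 0 < M n) → (∀ n, M n ∣ M (n + 1)) → (∀ N, 0 < N → ∃ n, N ∣ M n) →
      (Selberg ↔ ∀ μ : ℝ, 0 < μ → μ < 1 / 4 → ∀ c : ℕ,
        ∃ᶠ n in Filter.atTop, (c : Cardinal) * mult (M n) μ < (psi (M n) : Cardinal))) := by
  refine ⟨fun μ hμ N M hM h => psi_mono hμ hM h, fun μ hμ N hN => ?_,
    selberg_iff.trans numSq_iff,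
    fun p hp => selberg_iff.trans (pow_iff hp), fun S hS => selberg_iff.trans (set_iff S hS),
    fun M h1 h2 h3 => selberg_iff.trans (chain_iff M h1 h2 h3)⟩
  by_cases h : mult N μ = 0
  · exact Or.inl h
  · exact Or.inr (numSq_le hN hμ h)

end Pool.Agent.Results.MP_a812b2_nt.MultiplicityDivisibility
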