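import Pool.Agent.H486.OA.T23

/-!
# Asymptotic optimal lifting for all congruence subgroups

There are about `6 T²` matrices of Frobenius norm at most `T` in `SL(2,ℤ)`. If they act on the `n`
cosets of a congruence subgroup of index `n`, a pair `(x, y)` of cosets should be joined by about
`6 T² / n` of them. The conjecture of Selberg gives this, with a power saving, for almost all pairs
as soon as `T ≥ n ^ (1/2 + η)`, and for all pairs, up to few exceptional cosets, as soon as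
`T ≥ n ^ (1 + η)`. We prove both without any hypothesis, for ALL congruence subgroups, uniformly in
the subgroup and in `T`; the exponent which is saved is `c η`, linear in `η`, as under the conjecture.

Proof. On `L²(Γ(N)\ℍ)` the operators with the kernels `(√2 π)⁻¹ (cosh a - cosh d)^(-1/2)` (`d < a`)
satisfy `W_a W_b = ∫_{|a-b|}^{a+b} W_c dc`; this is proved with the Abel transform. So (Gelfand
theory) a character of the algebra of the radial operators is given by `2 sinh (ν a) / ν` with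
`ν > 0` or is bounded by `2 a` (tempered), and the spectral gap says `ν ≤ 1/2 - c`. This gives
sharp inequalities between the averages over balls of different radii on functions of mean value
zero, which include the continuous spectrum. The averages over the balls of radius `log n` are
controlled by the counting argument of Sarnak and Xue for all congruence subgroups.
-/

set_option autoImplicit false

open CongruenceSubgroup
open scoped MatrixGroups

namespace Pool.Agent.Results.MP_a812b2_nt.OptimalLiftingAsymptotics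

/-- **Asymptotic optimal lifting for all congruence subgroups.** Write `n` for the index of a
congruence subgroup `Γ` of `SL(2,ℤ)` and `m(T, x, y)` for the number of the matrices
`γ = (a, b; c, d)` in `SL(2,ℤ)` with `a² + b² + c² + d² ≤ T²` and `γ x = y`, for
`x, y` in `SL(2,ℤ) ⧸ Γ`. There is `c > 0` such that for every `0 < η ≤ 1` there is `C > 0` such that
for EVERY congruence subgroup:

1. `∑_{x, y} |m(T, x, y) - 6 T² / n|² ≤ C T ^ (4 - c η)` for all `T ≥ n ^ (1/2 + η)`.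
2. There is a set `E` of at most `C n ^ (1 - c η)` cosets, with `E = ∅` if `Γ` is normal, such that
   (a) `∑_y |m(T, x, y) - 6 T² / n|² ≤ C T ^ (4 - c η) / n` for all `x ∉ E` and
   `T ≥ n ^ (1/2 + η)`;
   (b) `|m(T, x, y) - 6 T² / n| ≤ C T ^ (2 - c η) / n` for all `x, y ∉ E` and `T ≥ n ^ (1 + η)`. -/
theorem result :
    ∃ c : ℝ, 0 < c ∧ ∀ η : ℝ, 0 < η → η ≤ 1 → ∃ C : ℝ, 0 < C ∧ ∀ Γ : Subgroup SL(2, ℤ),
      (∃ N : ℕ, 0 < N ∧ Gamma N ≤ Γ) →
      (∀ T : ℝ, (Γ.index : ℝ) ^ (1 / 2 + η) ≤ T →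
        ∑' p : (SL(2, ℤ) ⧸ Γ) × (SL(2, ℤ) ⧸ Γ),
          ((Nat.card {γ : SL(2, ℤ) // γ • p.1 = p.2 ∧
            ((γ 0 0 : ℤ) : ℝ) ^ 2 + ((γ 0 1 : ℤ) : ℝ) ^ 2 + ((γ 1 0 : ℤ) : ℝ) ^ 2 +
              ((γ 1 1 : ℤ) : ℝ) ^ 2 ≤ T ^ 2} : ℝ) - 6 * T ^ 2 / Γ.index) ^ 2 ≤
          C * T ^ (4 - c * η)) ∧
      ∃ E : Set (SL(2, ℤ) ⧸ Γ), (E.ncard : ℝ) ≤ C * (Γ.index : ℝ) ^ (1 - c * η) ∧
        (Γ.Normal → E = ∅) ∧
        (∀ x ∉ E, ∀ T : ℝ, (Γ.index : ℝ) ^ (1 / 2 + η) ≤ T →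
          ∑' y : SL(2, ℤ) ⧸ Γ,
            ((Nat.card {γ : SL(2, ℤ) // γ • x = y ∧
              ((γ 0 0 : ℤ) : ℝ) ^ 2 + ((γ 0 1 : ℤ) : ℝ) ^ 2 + ((γ 1 0 : ℤ) : ℝ) ^ 2 +
                ((γ 1 1 : ℤ) : ℝ) ^ 2 ≤ T ^ 2} : ℝ) - 6 * T ^ 2 / Γ.index) ^ 2 ≤
            C * T ^ (4 - c * η) / Γ.index) ∧
        (∀ x ∉ E, ∀ y ∉ E, ∀ T : ℝ, (Γ.index : ℝ) ^ (1 + η) ≤ T →
          |(Nat.card {γ : SL(2, ℤ) // γ • x = y ∧
            ((γ 0 0 : ℤ) : ℝ) ^ 2 + ((γ 0 1 : ℤ) : ℝ) ^ 2 + ((γ 1 0 : ℤ) : ℝ) ^ 2 +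
              ((γ 1 1 : ℤ) : ℝ) ^ 2 ≤ T ^ 2} : ℝ) - 6 * T ^ 2 / Γ.index| ≤
            C * T ^ (2 - c * η) / Γ.index) :=
  Pool.Agent.H486.OAp.T23.final2

end Pool.Agent.Results.MP_a812b2_nt.OptimalLiftingAsymptotics
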