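import Pool.Agent.H382.PD.G

/-!
# The pointwise density theorem, and the sup norms of exceptional eigenfunctions

Let `Γ ≤ SL(2, ℤ)` be a congruence subgroup of index `n`, and let `f_1, ..., f_k` be an orthonormal
family of square integrable eigenfunctions on `Γ \ ℍ` with Laplace eigenvalues `1/4 - ν_i²`,
`0 ≤ ν_i ≤ 1/2`, that is, with eigenvalues at most `1/4` (by Selberg's conjecture `ν_i > 0` happens
only for the constants). Let `z` be a point of `ℍ` all of whose images under `SL(2, ℤ)` have height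
at most `Y ≤ n`. For every `c < 2` and all `n ≥ 2` we show, with a `C` which depends only on `c`:

* (1) the sum of `n ^ (c ν_i) |f_i|²` over all `i` and over the `n` points `x⁻¹ z`,
  `x ∈ SL(2, ℤ) ⧸ Γ`, of `Γ \ ℍ` over `z` is at most `C n (1 + Y n ^ (-1/73)) / (log n)³`;
* (2) if `Γ` is normal, and none of the translations `T ^ j`, `0 < j < h`, is in `Γ` (so `h` is at
  most the width of the cusps), then
  `∑_i n ^ (c ν_i) |f_i(z)|² ≤ C ((log n) ^ (-3) + (Y + log n) / h)`.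

For `Γ = Γ(N)` one has `h = N` and `n ≥ c N³`. So every eigenfunction `f` for `Γ(N)`, or for another
normal congruence subgroup, with eigenvalue `1/4 - ν²` and normalised in `L²(Γ \ ℍ)`,
satisfies `|f(z)| ≤ C n ^ (- c ν / 2)` for all `z` with `Y ≤ h`, and `|f(z)| ≤
C n ^ (- c ν / 2) (log n) ^ (-3/2)` for `Y ≤ h / (log n)³`. In the level aspect a counterexample to
Selberg's conjecture is spread out over the whole surface. (Without the new input one has
`|f(z)| ≤ C (1 + Y / h) ^ (1/2)`.) In (1) `z` is fixed; after integration over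
`SL(2, ℤ) \ ℍ` one obtains the density theorem, which is an average over `z`.

Proof. The pretrace inequality at the points `x⁻¹ z`, with the kernel of the log-free density theorem
(`MP_a812b2_nt.LogFreeDensityHypothesis`, by helper486), has after summation over `x` the geometric
side `∑_δ fix(δ) k(δ z, z)`, where `fix(δ)` is the number of the fixed points of `δ` on
`SL(2, ℤ) ⧸ Γ`. The estimates of the fixed points in that work hold for each `z` in the fundamental
domain. If `Γ` is normal all terms of the sum over `x` are equal, and for the parabolic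
`δ` we use the width of the cusps.
-/

set_option autoImplicit false

open UpperHalfPlane MeasureTheory CongruenceSubgroup
open scoped MatrixGroups ComplexConjugate Modular

namespace Pool.Agent.Results.MP_a812b2_nt.PointwiseDensity

/-- `f` is a square integrable eigenfunction of the Laplacian for `Γ` with the eigenvalue `μ` (as a
function on the upper half plane). -/
structure IsEigenform (Γ : Subgroup SL(2, ℤ)) (μ : ℝ) (f : ℂ → ℂ) : Prop where
  /-- smoothness -/
  smooth : ContDiffOn ℝ (⊤ : ℕ∞) f {w : ℂ | 0 < w.im}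
  /-- invariance -/
  inv : ∀ γ ∈ Γ, ∀ z : ℍ, f ((γ • z : ℍ) : ℂ) = f (z : ℂ)
  /-- `-y² (f_xx + f_yy) = μ f` -/
  eq : ∀ z : ℍ, -((z.im : ℂ) ^ 2) *
      (deriv (fun s : ℝ => deriv (fun t : ℝ => f ((t : ℂ) + (z.im : ℂ) * Complex.I)) s) z.re
        + deriv (fun s : ℝ => deriv (fun t : ℝ => f ((z.re : ℂ) + (t : ℂ) * Complex.I)) s) z.im)
      = (μ : ℂ) * f (z : ℂ)
  /-- square integrability on `Γ \ ℍ` -/
  sqint : ∀ γ : SL(2, ℤ), IntegrableOn (fun w : ℂ => ‖f w‖ ^ 2 / w.im ^ 2)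
    ((fun z : ℍ => ((γ • z : ℍ) : ℂ)) '' ModularGroup.fd)

/-- The Petersson product of two `Γ`-invariant functions: the sum of the integrals of `f̄ g` over the
sets `x⁻¹ 𝒟`, `x ∈ SL(2, ℤ) ⧸ Γ`, with respect to the hyperbolic area; `𝒟` is the interior of the
standard fundamental domain of `SL(2, ℤ)`. These sets fill `Γ \ ℍ`, once if `-1 ∈ Γ`, and twice if
`-1 ∉ Γ`. -/
noncomputable def petersson (Γ : Subgroup SL(2, ℤ)) (f g : ℂ → ℂ) : ℂ :=
  ∑' x : SL(2, ℤ) ⧸ Γ, ∫ z in (ModularGroup.fdo : Set ℍ),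
    conj (f ((x.out⁻¹ • z : ℍ) : ℂ)) * g ((x.out⁻¹ • z : ℍ) : ℂ)

/-- **The pointwise density theorem.** -/
theorem result : ∀ c : ℝ, 0 < c → c < 2 → ∃ C : ℝ, 0 < C ∧ ∀ Γ : Subgroup SL(2, ℤ),
    (∃ N : ℕ, 0 < N ∧ Gamma N ≤ Γ) → 2 ≤ Γ.index →
      ∀ (k : ℕ) (ν : Fin k → ℝ) (f : Fin k → ℂ → ℂ),
        (∀ i, 0 ≤ ν i ∧ ν i ≤ 1 / 2) → (∀ i, IsEigenform Γ (1 / 4 - ν i ^ 2) (f i)) →
        (∀ i j, petersson Γ (f i) (f j) = if i = j then 1 else 0) →
        ∀ (z : ℍ) (Y : ℝ), (∀ γ : SL(2, ℤ), (γ • z).im ≤ Y) → Y ≤ (Γ.index : ℝ) →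
          (∑' x : SL(2, ℤ) ⧸ Γ, ∑ i, (Γ.index : ℝ) ^ (c * ν i) *
              ‖f i ((x.out⁻¹ • z : ℍ) : ℂ)‖ ^ 2 ≤
            C * ((Γ.index : ℝ) / Real.log (Γ.index : ℝ) ^ 3 *
              (1 + Y * (Γ.index : ℝ) ^ (-(1 / 73) : ℝ)))) ∧
          (Γ.Normal → ∀ h : ℕ, 0 < h → (∀ j : ℕ, 0 < j → j < h → ModularGroup.T ^ j ∉ Γ) →
            ∑ i, (Γ.index : ℝ) ^ (c * ν i) * ‖f i (z : ℂ)‖ ^ 2 ≤
              C * (1 / Real.log (Γ.index : ℝ) ^ 3 + (Y + Real.log (Γ.index : ℝ)) / h)) := by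
  intro c hc0 hc2
  obtain ⟨C₁, hC₁, h1⟩ := Pool.Agent.H382.PD.main_gen c hc0 hc2
  obtain ⟨C₂, hC₂, h2⟩ := Pool.Agent.H382.PD.main_normal c hc0 hc2
  obtain ⟨C₃, hC₃, h3⟩ := Pool.Agent.H382.PD.small c hc0 hc2 (C₁ + C₂)
  refine ⟨C₁ + C₂ + C₃, by positivity, fun Γ hΓ hidx k ν f hν hf hort z Y hY hYn => ?_⟩
  have hf' : ∀ i, Pool.Agent.N799.DT.IsEigen Γ (ν i) (f i) :=
    fun i => ⟨(hf i).smooth, (hf i).inv, (hf i).eq, (hf i).sqint⟩
  have hn2 : (2 : ℝ) ≤ Γ.index := by exact_mod_cast hidx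
  have hn1 : (1 : ℝ) ≤ Γ.index := by linarith
  have hlog : 0 ≤ Real.log (Γ.index : ℝ) := Real.log_nonneg hn1
  have hY0 : 0 < Y := by
    have := hY 1
    rw [one_smul] at this
    exact z.im_pos.trans_le this
  have hX : 0 ≤ (Γ.index : ℝ) / Real.log (Γ.index : ℝ) ^ 3 := by positivity
  have hX1 : 0 ≤ Y * (Γ.index : ℝ) ^ (-(1 / 73) : ℝ) := by positivity
  rcases le_or_gt (C₁ + C₂) (Γ.index : ℝ) with hbig | hsmall
  · refine ⟨?_, fun hnor h hh hT => ?_⟩
    · refine (h1 Γ hΓ (by linarith) k ν f hν hf' hort z Y hY hYn).trans ?_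
      apply mul_le_mul_of_nonneg_right _ (by positivity)
      linarith
    · refine (h2 Γ hΓ (by linarith) hnor h hh hT k ν f hν hf' hort z Y hY hYn).trans ?_
      apply mul_le_mul_of_nonneg_right _ (by positivity)
      linarith
  · have h4 := h3 Γ hΓ hidx hsmall.le k ν f hν hf' hort z Y hY hYn
    refine ⟨h4.1.trans ?_, fun hnor h hh hT => (h4.2 hnor).trans ?_⟩
    · apply mul_le_mul (by linarith) _ hX (by positivity)
      exact le_mul_of_one_le_right hX (by linarith)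
    · have h5 : 0 ≤ (Y + Real.log (Γ.index : ℝ)) / h := by positivity
      apply mul_le_mul (by linarith) _ (by positivity) (by positivity)
      linarith

end Pool.Agent.Results.MP_a812b2_nt.PointwiseDensity
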